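import Pool.Agent.RT.Main

/-!
# Over every oracle the reflection conjecture (Q1) can be destroyed by a super-tally set, and then
# fails relative to comeager many further oracles

All notions are relativised to an oracle `O ⊆ ℕ`: the language has a predicate symbol for `O`,
`S^1_2(O)` has polynomial induction for `Σ^b_1(O)` formulas, every theory of the class `𝒯`
relative to `O` contains `S^1_2(O)` and the diagram of `O`, and its axioms are decidable in
polynomial time relative to `O`.  For every oracle `B` there is an oracle `A` which contains only
numbers of the form `2 ^ 2 ^ 2 ^ m` (one string of each length `2 ^ 2 ^ m + 1`) such that Q1 fails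
relative to `B ⊕ A`, and such that for comeager many `G`, relative to `O = (B ⊕ A) ⊕ G`: every
infinite set in P has a subset in `Π^p_2` that is not in `Σ^p_2`, but Q1 fails.  Q1 fails for all
universal formulas `μ` and all formalisations `P` of proofs: some `S` in `𝒯` has, for every `T` in
`𝒯`, `S`-proofs of the reflection sentences of `T` that are constructed in polynomial time.
-/

open Filter Topology

namespace Pool.Agent.RT.GenericOracleResult

open Pool.Agent.H19 (T)
open Pool.Agent.RO
open Pool.Agent.RD

theorem result (B : Om) : ∃ A : Om, (∀ i, A i = true → ∃ m : ℕ, i = 2 ^ 2 ^ 2 ^ m) ∧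
    (∀ (μ : Fm) (P : OCode → ℕ → Fm), IsUniversal μ → IsFormalisation μ P →
      ¬ ReflectionConjecture (join B A) μ P) ∧
    ∀ᶠ G in residual Om,
      (∀ D : Set T, D.Infinite → InP (join (join B A) G) D →
        ∃ L ⊆ D, InPi2 (join (join B A) G) L ∧ ¬ InSigma2 (join (join B A) G) L) ∧
      ∀ (μ : Fm) (P : OCode → ℕ → Fm), IsUniversal μ → IsFormalisation μ P →
        ¬ ReflectionConjecture (join (join B A) G) μ P :=
  Pool.Agent.RT.main B

end Pool.Agent.RT.GenericOracleResult
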