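import Pool.Agent.RD.Sparse
import Pool.Agent.RD.All
import Pool.Agent.Lib_helper19.Tally

/-!
# Over every base oracle: category versus measure, with a super-tally set

For every oracle `B` there is a set `A` of numbers `2 ^ 2 ^ 2 ^ m` (in binary: strings
`1 0 ^ (2 ^ 2 ^ m)`) such that the reflection conjecture fails relative to `B ⊕ A`, and for comeager
many oracles `G` it fails relative to `(B ⊕ A) ⊕ G`, although no infinite set in P has all its
`Π^p_2` subsets in `Σ^p_2`.
-/

open Filter Topology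

namespace Pool.Agent.RT

open Pool.Agent.H19 (T PolyTime PolyDec PolyNat PolyN PolyB Tm scons bn bl ofBool encL vec3 tt
  Tower qOf lOf aOf mIdx tc)
open Pool.Agent.RO
open Pool.Agent.RD (Cond)
open Pool.Agent.RH (padF unpad PadF PADF_thm)

/-! ### Definitions -/

/-- The reflection sentence attached to the level `w` and the number `n`. -/
def theta (w : T) (n : ℕ) : Fm := rfn (decFm (qOf w).left.left) (decFm (qOf w).left.right) n

/-- The condition attached to the level `w`. -/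
def sOf (w : T) : T := (qOf w).right.left.right

/-- The kind of the level `w`: `leaf` for levels used with an oracle `G`. -/
def fOf (w : T) : T := (qOf w).right.left.left

/-- The formula `θ` is true in `(B ⊕ A') ⊕ G`, for all `A'` which agree with `A` below `p` and
all `G` which satisfy the condition `s`, if the kind `f` is `leaf`; otherwise it is true in
`B ⊕ A'`, for all these `A'`. -/
def Forced (B A : Om) (p : ℕ) (θ : Fm) (f s : T) : Prop :=
  ∀ A' : Om, (∀ k < p, A' k = A k) →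
    (f = T.leaf → ∀ G : Om, Cond s G → ∀ v, θ.sat (stdN (join (join B A') G)) v) ∧
    (f ≠ T.leaf → ∀ v, θ.sat (stdN (join B A')) v)

/-- All the reflection sentences of the level `m` are forced. -/
def AllForced (B A : Om) (m : ℕ) : Prop :=
  ∀ n ≤ 2 ^ lOf (T.unary (2 ^ (2 ^ m))), Forced B A (2 ^ (2 ^ (2 ^ m)))
    (theta (T.unary (2 ^ (2 ^ m))) n) (fOf (T.unary (2 ^ (2 ^ m)))) (sOf (T.unary (2 ^ (2 ^ m))))

/-- The super-tally set `A` answers questions about forcing, over the base `B`. -/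
def IsBase (B A : Om) : Prop := ∀ i : ℕ, A i = true ↔ ∃ m, i = 2 ^ (2 ^ (2 ^ m)) ∧
  AllForced B A m

theorem forced_congr {B A C : Om} {p : ℕ} (h : ∀ k < p, A k = C k) (θ : Fm) (f s : T) :
    Forced B A p θ f s ↔ Forced B C p θ f s := by
  unfold Forced
  constructor
  · intro H B' hB'
    exact H B' (fun k hk => (hB' k hk).trans (h k hk).symm)
  · intro H B' hB'
    exact H B' (fun k hk => (hB' k hk).trans (h k hk))

theorem tower_inj {m m' : ℕ} (h : 2 ^ (2 ^ (2 ^ m)) = 2 ^ (2 ^ (2 ^ m'))) : m = m' :=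
  Nat.pow_right_injective le_rfl (Nat.pow_right_injective le_rfl
    (Nat.pow_right_injective le_rfl h))

open Classical in
/-- The super-tally set. -/
noncomputable def baseO (B : Om) : ℕ → Bool := fun i =>
  Nat.strongRec (motive := fun _ => Bool) (fun i ih =>
    decide (∃ m, i = 2 ^ (2 ^ (2 ^ m)) ∧ ∀ n ≤ 2 ^ lOf (T.unary (2 ^ (2 ^ m))),
      Forced B (fun k => if h : k < i then ih k h else false) i
        (theta (T.unary (2 ^ (2 ^ m))) n) (fOf (T.unary (2 ^ (2 ^ m))))
        (sOf (T.unary (2 ^ (2 ^ m)))))) i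

theorem baseO_eq (B : Om) (i : ℕ) : baseO B i = true ↔ ∃ m, i = 2 ^ (2 ^ (2 ^ m)) ∧
    ∀ n ≤ 2 ^ lOf (T.unary (2 ^ (2 ^ m))),
      Forced B (fun k => if k < i then baseO B k else false) i
        (theta (T.unary (2 ^ (2 ^ m))) n) (fOf (T.unary (2 ^ (2 ^ m))))
        (sOf (T.unary (2 ^ (2 ^ m)))) := by
  unfold baseO
  rw [Nat.strongRec_eq]
  simp

theorem exists_base (B : Om) : ∃ A : Om, IsBase B A := by
  refine ⟨baseO B, fun i => ?_⟩
  rw [baseO_eq]
  refine exists_congr fun m => and_congr_right fun hi => ?_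
  unfold AllForced
  rw [← hi]
  refine forall₂_congr fun n _ => forced_congr (fun k hk => ?_) _ _ _
  simp [hk]

/-! ### The theory -/

/-- The test for additional axioms: `z` codes a level and a number `n`, the condition of the level
is satisfied by the odd part of the oracle, and the super-tally set says that the reflection
sentences of the level are forced. -/
def Ans (O : Om) (z : T) : Prop :=
  (Tower z.left ∧ z.right.len ≤ 2 ^ lOf z.left ∧ fOf z.left = T.leaf) ∧
  (∀ a ∈ (sOf z.left).toL, (O (2 * bn a.right + 1) = true ↔ a.left ≠ T.leaf)) ∧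
    O (2 * (2 * 2 ^ z.left.len + 1)) = true

/-- The sentence attached to a description. -/
def psi (z : T) : Fm := theta z.left z.right.len

/-- The theory `S`. -/
def SS (O : Om) : Set Fm :=
  {φ | φ ∈ S12 ∨ φ ∈ diag O ∨ ∃ z : T, φ = padF z (psi z) ∧ Ans O z}

theorem rfn_polyTime₂ {g h : T → T} {f : T → ℕ} (hg : PolyTime g) (hh : PolyTime h)
    (hf : PolyNat f) : PolyTime (fun x => (rfn (decFm (g x)) (decFm (h x)) (f x)).enc) := by
  have L := PolyTime.leaf
  have c : ∀ a : T, PolyTime (fun _ => a) := fun a => PolyTime.const a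
  have I : ∀ {f g : T → T}, PolyTime f → PolyTime g → PolyTime (fun x =>
    T.node (T.unary 11) (T.node (f x) (g x))) := fun hf hg => (c _).node (hf.node hg)
  have A : ∀ {f : T → T}, PolyTime f → PolyTime (fun x =>
    T.node (T.unary 12) (T.node (f x) T.leaf)) := fun hf => (c _).node (hf.node L)
  have LE : ∀ i : ℕ, PolyTime (fun x => T.node (T.unary 10) (T.node (Tm.len (Tm.var i)).enc
    (Tm.numeral (f x)).enc)) := fun i => (c _).node ((c _).node hf.numeral)
  exact A (A (A (A (I (LE 0) (I (LE 1) (I (LE 2) (I (LE 3)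
    (I (normFm_polyTime.comp hg) (normFm_polyTime.comp hh)))))))))

theorem psi_polyTime : PolyTime (fun z => (psi z).enc) := by
  have i := PolyTime.id
  have hq := H19.qOf_polyTime.comp i.left
  exact rfn_polyTime₂ hq.left.left hq.left.right (PolyNat.len i.right)

theorem polyN_pos : PolyN (fun z => 2 * (2 * 2 ^ z.left.len + 1)) := by
  have i := PolyTime.id
  have h0 : PolyN (fun z : T => 2 ^ z.left.len) := PolyN.pow2 (PolyNat.len i.left)
  have h : PolyTime (fun z : T => T.node T.leaf (T.node (T.node T.leaf T.leaf)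
      (bl (2 ^ z.left.len)))) := PolyTime.leaf.node ((PolyTime.const _).node h0)
  exact h.congr fun z => by
    rw [PO.GNaux.bl_two_mul (by omega), PO.GNaux.bl_two_mul_add_one]

theorem ans_dec : DecOn Set.univ Ans := by
  have i := PolyTime.id
  have hs : PolyTime (fun z : T => sOf z.left) := (H19.qOf_polyTime.comp i.left).right.left.right
  have hf : PolyTime (fun z : T => fOf z.left) := (H19.qOf_polyTime.comp i.left).right.left.left
  have h0 : PolyDec (fun z : T => Tower z.left ∧ z.right.len ≤ 2 ^ lOf z.left ∧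
      fOf z.left = T.leaf) :=
    (H19.tower_polyDec.comp i.left).and ((PolyDec.leN (PolyNat.len i.right).toN
      (PolyN.pow2 (H19.lOf_polyNat.comp i.left))).and (PolyDec.eq_leaf hf))
  have hl : PolyTime (fun z : T => encL ((sOf z.left).toL)) :=
    hs.congr fun z => (H19.encL_toL _).symm
  have h1 := DecOn.all RD.ANSDEC.cond_dec hl
  have h2 : DecOn Set.univ (fun O z => O (2 * (2 * 2 ^ z.left.len + 1)) = true) :=
    DecOn.bit polyN_pos
  exact ((DecOn.of_dec h0).and (h1.and h2)).congr fun O _ z => Iff.rfl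

theorem ANSDEC_thm : DecOn Set.univ (fun O x =>
    (padF (unfalsum x) (psi (unfalsum x))).enc = x ∧ Ans O (unfalsum x)) := by
  have hu := RH.PADF_thm.polyUn
  have h1 : PolyDec (fun x => (padF (unfalsum x) (psi (unfalsum x))).enc = x) := by
    have h2 := psi_polyTime.comp hu
    have h := RH.PADF_thm.poly.comp (hu.node h2)
    exact (PolyDec.eq h PolyTime.id).congr fun x => by
      simp only [T.left_node, T.right_node, decFm_enc]
  exact (DecOn.of_dec h1).and (ans_dec.comp hu)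

/-- The additional axioms are true. -/
theorem sat_of_ans {B A : Om} (hA : IsBase B A) {G : Om} {z : T}
    (h : Ans (join (join B A) G) z) (v : ℕ → ℕ) :
    (padF z (psi z)).sat (stdN (join (join B A) G)) v := by
  obtain ⟨⟨⟨m, hm⟩, hn, hf⟩, h1, h2⟩ := h
  rw [RD.SCLASS.join_even, RD.SCLASS.join_odd] at h2
  obtain ⟨m', hm', hF⟩ := (hA _).1 h2
  have hmm : m' = m := by
    rw [hm, T.len_unary] at hm'
    exact (tower_inj hm').symm
  subst hmm
  have hc : Cond (sOf z.left) G := by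
    intro a ha
    have := h1 a ha
    rwa [RD.SCLASS.join_odd] at this
  refine fun _ => ?_
  rw [hm] at hn hc hf
  have h3 := (hF z.right.len hn A (fun _ _ => rfl)).1 hf G hc v
  unfold psi
  rw [hm]
  exact h3

theorem SCLASS_thm {B A : Om} (hA : IsBase B A) (G : Om) :
    InClassT (join (join B A) G) (SS (join (join B A) G)) := by
  refine ⟨⟨ℕ, stdN (join (join B A) G), ?_⟩, ?_⟩
  · rintro φ (hφ | hφ | ⟨z, rfl, hz⟩) v
    · exact stdN_models _ φ hφ v
    · exact stdN_diag _ φ hφ v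
    · exact sat_of_ans hA hz v
  · obtain ⟨F, hF, hd⟩ := ANSDEC_thm
    refine ⟨F (join (join B A) G), hF.polyTimeO (Set.mem_univ _), fun φ => ?_⟩
    rw [← hd (join (join B A) G) (Set.mem_univ _) φ.enc]
    constructor
    · rintro (hφ | hφ | ⟨z, hz, ha⟩)
      · exact Or.inl hφ
      · exact Or.inr (Or.inl hφ)
      · refine Or.inr (Or.inr ?_)
        have hu : unfalsum φ.enc = z := by rw [hz]; exact RD.SCLASS.unfalsum_padF _ _
        show (padF (unfalsum φ.enc) (psi (unfalsum φ.enc))).enc = φ.enc ∧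
          Ans (join (join B A) G) (unfalsum φ.enc)
        rw [hu]
        exact ⟨by rw [← hz], ha⟩
    · rintro (hφ | hφ | ⟨he, ha⟩)
      · exact Or.inl hφ
      · exact Or.inr (Or.inl hφ)
      · exact Or.inr (Or.inr ⟨unfalsum φ.enc, (Fm.enc_inj.1 he).symm, ha⟩)

/-! ### The construction of proofs -/

theorem join_agree {B A A' G' : Om} {p K : ℕ} (hB : ∀ k < p, A' k = A k) (hm : 2 ^ K ≤ p)
    (i : ℕ) (hi : i.size ≤ K) : join (join B A') G' i = join (join B A) G' i := by
  have h1 : i < 2 ^ K := Nat.size_le.1 hi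
  unfold RO.join
  split_ifs with h h'
  · rfl
  · apply hB
    omega
  · rfl

/-- The data of a level. -/
def data (Q μ : Fm) (f s : T) (k : ℕ) : T :=
  T.node (T.node Q.enc μ.enc) (T.node (T.node f s) (T.unary (k + 2)))

theorem theta_data {Q μ : Fm} {f s : T} {k : ℕ} {w : T} (hq : qOf w = data Q μ f s k) (n : ℕ) :
    theta w n = rfn Q μ n := by
  unfold theta
  rw [hq]
  simp only [data, T.left_node, T.right_node, decFm_enc]

theorem sOf_data {Q μ : Fm} {f s : T} {k : ℕ} {w : T} (hq : qOf w = data Q μ f s k) :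
    sOf w = s := by
  unfold sOf
  rw [hq]
  simp only [data, T.left_node, T.right_node]

theorem fOf_data {Q μ : Fm} {f s : T} {k : ℕ} {w : T} (hq : qOf w = data Q μ f s k) :
    fOf w = f := by
  unfold fOf
  rw [hq]
  simp only [data, T.left_node, T.right_node]

/-- Levels with given data. -/
theorem LEVEL (Q μ : Fm) (f s : T) (k : ℕ) : ∃ N : ℕ → ℕ, PolyNat (fun x => N x.len) ∧
    ∀ n, (∃ m, N n = 2 ^ (2 ^ m)) ∧ qOf (T.unary (N n)) = data Q μ f s k ∧
      n ≤ 2 ^ lOf (T.unary (N n)) ∧ ∀ n' ≤ 2 ^ lOf (T.unary (N n)), (n' + 2) ^ k ≤ N n := by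
  have i := PolyTime.id
  obtain ⟨a, ha⟩ : ∃ a, a = tc (data Q μ f s k) := ⟨_, rfl⟩
  have hm : PolyNat (fun x : T => mIdx a x.len) := by
    have hs : PolyNat (fun x : T => x.len) := PolyNat.len i
    have h1 : PolyNat (fun x : T => x.len.size.size) := PolyN.size (PolyNat.toN (PolyN.size hs.toN))
    have h2 := H19.PolyNat.divPow (h1.add (PolyNat.const a)) (a + 1)
    exact ((((PolyNat.const (2 ^ (a + 1))).mul (h2.add (PolyNat.const 1))).add
      (PolyNat.const (2 ^ a))).sub (PolyNat.const 1))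
  refine ⟨fun n => 2 ^ (2 ^ mIdx a n), ?_, fun n => ⟨⟨_, rfl⟩, ?_⟩⟩
  · refine H19.PolyNat.tower hm ?_
    obtain ⟨k, hk⟩ : PolyB (fun n => (4 * n + 2) ^ (2 ^ (a + 2 ^ (a + 1) + 2 ^ a + 1))) :=
      (((PolyB.const 4).mul PolyB.id).add (PolyB.const 2)).pow _
    refine ⟨k, fun x => le_trans ?_ (hk x.size)⟩
    refine (H19.tower_mIdx_le a x.len).trans (Nat.pow_le_pow_left ?_ _)
    have := T.len_lt_size x
    omega
  have hidx : aOf (T.unary (2 ^ (2 ^ mIdx a n))) = a := H19.aOf_tower (H19.mIdx_succ a n)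
  have hq : qOf (T.unary (2 ^ (2 ^ mIdx a n))) = data Q μ f s k := by
    rw [qOf, hidx, ha, H19.treeOf_tc]
  have hlo : lOf (T.unary (2 ^ (2 ^ mIdx a n))) = 2 ^ mIdx a n / 2 ^ a := by
    rw [lOf, hidx]
    have h1 : H19.lg (T.unary (2 ^ (2 ^ mIdx a n))) = 2 ^ mIdx a n := H19.lg_tower _
    rw [h1]
  have h3k : 3 * k ≤ 2 ^ a := by
    have h1 : k + 2 ≤ tc (T.node (T.node f s) (T.unary (k + 2))) := H19.le_tc_node _ _
    have h2 : 2 * tc (T.node (T.node f s) (T.unary (k + 2))) + 1 ≤ a := by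
      rw [ha]
      show _ ≤ 2 ^ tc (T.node Q.enc μ.enc) *
        (2 * tc (T.node (T.node f s) (T.unary (k + 2))) + 1)
      exact Nat.le_mul_of_pos_left _ (by positivity)
    have h3 : 2 ^ (k + 2) ≤ 2 ^ a := Nat.pow_le_pow_right (by omega) (by omega)
    have h4 : k < 2 ^ k := Nat.lt_two_pow_self
    rw [pow_add] at h3
    omega
  refine ⟨hq, ?_, fun n' hn' => ?_⟩
  · rw [hlo]
    exact (H19.le_pow_mIdx a n).le
  · rw [hlo] at hn'
    have hma : a ≤ mIdx a n := by have := H19.le_mIdx a n; omega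
    have hL1 : 1 ≤ 2 ^ mIdx a n / 2 ^ a := by
      rw [Nat.pow_div hma (by omega)]
      exact Nat.one_le_two_pow
    obtain ⟨L, hL⟩ : ∃ L, L = 2 ^ mIdx a n / 2 ^ a := ⟨_, rfl⟩
    rw [← hL] at hn' hL1
    have hLm : L * 2 ^ a ≤ 2 ^ mIdx a n := by rw [hL]; exact Nat.div_mul_le_self _ _
    calc (n' + 2) ^ k ≤ (2 ^ (L + 2)) ^ k := by
          apply Nat.pow_le_pow_left
          rw [pow_add]
          have : 1 ≤ 2 ^ L := Nat.one_le_two_pow
          omega
      _ = 2 ^ ((L + 2) * k) := by rw [← pow_mul]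
      _ ≤ 2 ^ (2 ^ mIdx a n) := by
          apply Nat.pow_le_pow_right (by omega)
          refine le_trans ?_ hLm
          calc (L + 2) * k ≤ (3 * L) * k := Nat.mul_le_mul_right _ (by omega)
            _ = L * (3 * k) := by ring
            _ ≤ L * 2 ^ a := Nat.mul_le_mul_left _ h3k

/-- Proofs from padded axioms. -/
theorem PROOFS (P μ : Fm) {Th : Set Fm} {N : ℕ → ℕ} (hN : PolyNat (fun x => N x.len))
    (h : ∀ n, padF (T.node (T.unary (N n)) (T.unary n)) (rfn P μ n) ∈ Th) :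
    ∃ f : T → T, PolyTime f ∧ ∀ n : ℕ, ∃ π : List Step,
      f (T.unary n) = encProof π ∧ IsProof Th π (rfn P μ n) := by
  have i := PolyTime.id
  let w : T → T := fun x => T.node (T.unary (N x.len)) (T.unary x.len)
  have hw : PolyTime w := hN.unary.node (PolyNat.len i).unary
  have hr : PolyTime (fun x => (rfn P μ x.len).enc) := by
    have h := rfn_polyTime μ (PolyTime.const P.enc) (PolyNat.len i)
    exact h.congr fun x => by rw [decFm_enc]
  have c : ∀ a : T, PolyTime (fun _ => a) := fun a => PolyTime.const a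
  have ht := H19.tt_polyTime.comp hw
  have he : PolyTime (fun x => (Fm.eq (tt (w x)) (tt (w x))).enc) := (c _).node (ht.node ht)
  have hp : PolyTime (fun x => (padF (w x) (rfn P μ x.len)).enc) := (c _).node (he.node hr)
  refine ⟨fun x => encProof (unpad (w x) (rfn P μ x.len)),
    ((c _).node hp).node (((c _).node ht).node (((c _).node (he.node hr)).node (c _))),
    fun n => ⟨unpad (w (T.unary n)) (rfn P μ n), by simp only [T.len_unary], ?_⟩⟩
  apply PADF_thm.proof
  have hwn : w (T.unary n) = T.node (T.unary (N n)) (T.unary n) := by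
    simp only [w, T.len_unary]
  rw [hwn]
  exact h n

theorem CONSTR_thm (h : RD.Stmt_RFNLOC) {B A : Om} (hA : IsBase B A) (G : Om) (P μ : Fm)
    (hP : P.bdd = true) (hμ : μ.bdd = true) (hP4 : P.fvBelow 4) (hμ4 : μ.fvBelow 4) (s : T)
    (hs : Cond s G)
    (hall : ∀ G' : Om, Cond s G' → ∀ (n : ℕ) v, (rfn P μ n).sat (stdN (join (join B A) G')) v) :
    ∃ f : T → T, PolyTime f ∧ ∀ n : ℕ, ∃ π : List Step,
      f (T.unary n) = encProof π ∧ IsProof (SS (join (join B A) G)) π (rfn P μ n) := by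
  obtain ⟨k, hk⟩ := h P μ hP hμ hP4 hμ4
  obtain ⟨N, hN, hNn⟩ := LEVEL P μ T.leaf s k
  refine PROOFS P μ hN fun n => ?_
  obtain ⟨⟨m, hm⟩, hq, hn, hbig⟩ := hNn n
  refine Or.inr (Or.inr ⟨T.node (T.unary (N n)) (T.unary n), ?_,
    ⟨⟨m, ?_⟩, ?_, ?_⟩, ?_, ?_⟩)
  · rw [psi, T.left_node, T.right_node, T.len_unary, theta_data hq]
  · rw [T.left_node, hm]
  · rw [T.left_node, T.right_node, T.len_unary]
    exact hn
  · rw [T.left_node, fOf_data hq]
  · rw [T.left_node, sOf_data hq]
    intro a ha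
    rw [RD.SCLASS.join_odd]
    exact hs a ha
  · rw [T.left_node, T.len_unary, RD.SCLASS.join_even, RD.SCLASS.join_odd, hA]
    refine ⟨m, by rw [hm], ?_⟩
    rw [AllForced, ← hm]
    intro n' hn' A' hA'
    rw [theta_data hq, sOf_data hq, fOf_data hq]
    refine ⟨fun _ G' hG' v => ?_, fun hne => absurd rfl hne⟩
    exact (hk n' (join (join B A) G') (join (join B A') G')
      (fun i hi => join_agree hA' (Nat.pow_le_pow_right (by omega) (hbig n' hn')) i hi) v v).1
      (hall G' hG' n' v)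

/-! ### The conjecture fails relative to `B ⊕ A` -/

/-- The test for additional axioms, without an oracle `G`. -/
def Ans0 (O : Om) (z : T) : Prop :=
  (Tower z.left ∧ z.right.len ≤ 2 ^ lOf z.left ∧ ¬ fOf z.left = T.leaf) ∧
    O (2 * 2 ^ z.left.len + 1) = true

/-- The theory `S`, without an oracle `G`. -/
def SS0 (O : Om) : Set Fm :=
  {φ | φ ∈ S12 ∨ φ ∈ diag O ∨ ∃ z : T, φ = padF z (psi z) ∧ Ans0 O z}

theorem polyN_pos0 : PolyN (fun z => 2 * 2 ^ z.left.len + 1) := by
  have i := PolyTime.id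
  have h0 : PolyN (fun z : T => 2 ^ z.left.len) := PolyN.pow2 (PolyNat.len i.left)
  have h : PolyTime (fun z : T => T.node (T.node T.leaf T.leaf) (bl (2 ^ z.left.len))) :=
    (PolyTime.const _).node h0
  exact h.congr fun z => by rw [PO.GNaux.bl_two_mul_add_one]

theorem ans0_dec : DecOn Set.univ Ans0 := by
  have i := PolyTime.id
  have hf : PolyTime (fun z : T => fOf z.left) := (H19.qOf_polyTime.comp i.left).right.left.left
  have h0 : PolyDec (fun z : T => Tower z.left ∧ z.right.len ≤ 2 ^ lOf z.left ∧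
      ¬ fOf z.left = T.leaf) :=
    (H19.tower_polyDec.comp i.left).and ((PolyDec.leN (PolyNat.len i.right).toN
      (PolyN.pow2 (H19.lOf_polyNat.comp i.left))).and (PolyDec.eq_leaf hf).not)
  have h2 : DecOn Set.univ (fun O z => O (2 * 2 ^ z.left.len + 1) = true) :=
    DecOn.bit polyN_pos0
  exact ((DecOn.of_dec h0).and h2).congr fun O _ z => Iff.rfl

theorem ANSDEC0_thm : DecOn Set.univ (fun O x =>
    (padF (unfalsum x) (psi (unfalsum x))).enc = x ∧ Ans0 O (unfalsum x)) := by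
  have hu := RH.PADF_thm.polyUn
  have h1 : PolyDec (fun x => (padF (unfalsum x) (psi (unfalsum x))).enc = x) := by
    have h2 := psi_polyTime.comp hu
    have h := RH.PADF_thm.poly.comp (hu.node h2)
    exact (PolyDec.eq h PolyTime.id).congr fun x => by
      simp only [T.left_node, T.right_node, decFm_enc]
  exact (DecOn.of_dec h1).and (ans0_dec.comp hu)

theorem sat_of_ans0 {B A : Om} (hA : IsBase B A) {z : T} (h : Ans0 (join B A) z) (v : ℕ → ℕ) :
    (padF z (psi z)).sat (stdN (join B A)) v := by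
  obtain ⟨⟨⟨m, hm⟩, hn, hf⟩, h2⟩ := h
  rw [RD.SCLASS.join_odd] at h2
  obtain ⟨m', hm', hF⟩ := (hA _).1 h2
  have hmm : m' = m := by
    rw [hm, T.len_unary] at hm'
    exact (tower_inj hm').symm
  subst hmm
  refine fun _ => ?_
  rw [hm] at hn hf
  have h3 := (hF z.right.len hn A (fun _ _ => rfl)).2 hf v
  unfold psi
  rw [hm]
  exact h3

theorem SCLASS0_thm {B A : Om} (hA : IsBase B A) : InClassT (join B A) (SS0 (join B A)) := by
  refine ⟨⟨ℕ, stdN (join B A), ?_⟩, ?_⟩
  · rintro φ (hφ | hφ | ⟨z, rfl, hz⟩) v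
    · exact stdN_models _ φ hφ v
    · exact stdN_diag _ φ hφ v
    · exact sat_of_ans0 hA hz v
  · obtain ⟨F, hF, hd⟩ := ANSDEC0_thm
    refine ⟨F (join B A), hF.polyTimeO (Set.mem_univ _), fun φ => ?_⟩
    rw [← hd (join B A) (Set.mem_univ _) φ.enc]
    constructor
    · rintro (hφ | hφ | ⟨z, hz, ha⟩)
      · exact Or.inl hφ
      · exact Or.inr (Or.inl hφ)
      · refine Or.inr (Or.inr ?_)
        have hu : unfalsum φ.enc = z := by rw [hz]; exact RD.SCLASS.unfalsum_padF _ _
        show (padF (unfalsum φ.enc) (psi (unfalsum φ.enc))).enc = φ.enc ∧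
          Ans0 (join B A) (unfalsum φ.enc)
        rw [hu]
        exact ⟨by rw [← hz], ha⟩
    · rintro (hφ | hφ | ⟨he, ha⟩)
      · exact Or.inl hφ
      · exact Or.inr (Or.inl hφ)
      · exact Or.inr (Or.inr ⟨unfalsum φ.enc, (Fm.enc_inj.1 he).symm, ha⟩)

theorem FAILS0_thm (h : RD.Stmt_RFNLOC) (h5 : RD.Stmt_RFNTRUE) {B A : Om} (hA : IsBase B A)
    (μ : Fm) (P : OCode → ℕ → Fm) (hμ : IsUniversal μ) (hP : IsFormalisation μ P) :
    ¬ ReflectionConjecture (join B A) μ P := by
  intro hR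
  obtain ⟨c, κ, hH, hC, hn⟩ := hR (SS0 (join B A)) (SCLASS0_thm hA)
  apply hn
  have ht := h5 μ hμ P hP (join B A) c κ hC.1
  have b1 : (P c κ).bdd = true := (Fm.bdd_of (P c κ)).1 (hP.delta c κ).1
  have b2 : μ.bdd = true := (Fm.bdd_of μ).1 hμ.1
  have b3 : μ.fvBelow 4 := RD.FAILS.fvBelow_mono μ (by omega) hμ.2.1
  obtain ⟨k, hk⟩ := h (P c κ) μ b1 b2 (hP.below c κ) b3
  obtain ⟨N, hN, hNn⟩ := LEVEL (P c κ) μ (T.node T.leaf T.leaf) T.leaf k
  obtain ⟨f, hf, hfn⟩ := PROOFS (P c κ) μ (Th := SS0 (join B A)) hN fun n => by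
    obtain ⟨⟨m, hm⟩, hq, hn, hbig⟩ := hNn n
    refine Or.inr (Or.inr ⟨T.node (T.unary (N n)) (T.unary n), ?_, ⟨⟨m, ?_⟩, ?_, ?_⟩, ?_⟩)
    · rw [psi, T.left_node, T.right_node, T.len_unary, theta_data hq]
    · rw [T.left_node, hm]
    · rw [T.left_node, T.right_node, T.len_unary]
      exact hn
    · rw [T.left_node, fOf_data hq]; simp
    · rw [T.left_node, T.len_unary, RD.SCLASS.join_odd, hA]
      refine ⟨m, by rw [hm], ?_⟩
      rw [AllForced, ← hm]
      intro n' hn' A' hA'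
      rw [theta_data hq, sOf_data hq, fOf_data hq]
      refine ⟨fun h => by simp at h, fun _ v => ?_⟩
      refine (hk n' (join B A) (join B A') (fun i hi => ?_) v v).1 (ht n' v)
      have h1 : i < 2 ^ ((n' + 2) ^ k) := Nat.size_le.1 hi
      have h2 : 2 ^ ((n' + 2) ^ k) ≤ 2 ^ N n := Nat.pow_le_pow_right (by omega) (hbig n' hn')
      unfold RO.join
      split_ifs
      · rfl
      · apply hA'
        omega
  exact ⟨f, (PolyOn.of_poly (H := Set.univ) hf).polyTimeO (O := join B A)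
    (Set.mem_univ _), hfn⟩

/-! ### The conjecture fails for comeager many oracles -/

theorem FAILS_thm (h2 : RD.Stmt_RFNLOC) (h3 : RD.Stmt_GENERIC) (h5 : RD.Stmt_RFNTRUE)
    {B A : Om} (hA : IsBase B A) : ∀ᶠ G in residual Om,
    ∀ (μ : Fm) (P : OCode → ℕ → Fm), IsUniversal μ → IsFormalisation μ P →
      ¬ ReflectionConjecture (join (join B A) G) μ P := by
  have key : ∀ Q μ : Fm, ∀ᶠ G in residual Om, (Q.bdd = true → μ.bdd = true → Q.fvBelow 4 →
      μ.fvBelow 4 → (∀ (n : ℕ) v, (rfn Q μ n).sat (stdN (join (join B A) G)) v) →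
      ∃ s : T, Cond s G ∧ ∀ G' : Om, Cond s G' →
        ∀ (n : ℕ) v, (rfn Q μ n).sat (stdN (join (join B A) G')) v) := by
    intro Q μ
    by_cases hc : Q.bdd = true ∧ μ.bdd = true ∧ Q.fvBelow 4 ∧ μ.fvBelow 4
    swap
    · exact Eventually.of_forall fun G a b c d => absurd ⟨a, b, c, d⟩ hc
    obtain ⟨a, b, c, d⟩ := hc
    obtain ⟨k, hk⟩ := h2 Q μ a b c d
    have hU : IsOpen {G : Om | ∃ (n : ℕ) (v : ℕ → ℕ),
        ¬ (rfn Q μ n).sat (stdN (join (join B A) G)) v} := by
      refine RD.FAILS.isOpen_of_finite ?_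
      rintro G ⟨n, v, hv⟩
      refine ⟨2 ^ ((n + 2) ^ k), fun G' hG' => ⟨n, v, ?_⟩⟩
      intro hs
      refine hv ((hk n (join (join B A) G) (join (join B A) G') ?_ v v).2 hs)
      intro i hi
      unfold RO.join
      by_cases he : i % 2 = 0
      · simp [he]
      · simp only [he, if_false]
        refine hG' _ ?_
        have h6 : i < 2 ^ ((n + 2) ^ k) := Nat.size_le.1 hi
        omega
    filter_upwards [h3 _ hU] with G hG _ _ _ _ ht
    rcases hG with ⟨n, v, hv⟩ | ⟨s, hs, hs'⟩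
    · exact absurd (ht n v) hv
    · refine ⟨s, hs, fun G' hG' n v => ?_⟩
      by_contra hcon
      exact hs' G' hG' ⟨n, v, hcon⟩
  have key2 : ∀ᶠ G in residual Om, ∀ Q μ : Fm, (Q.bdd = true → μ.bdd = true → Q.fvBelow 4 →
      μ.fvBelow 4 → (∀ (n : ℕ) v, (rfn Q μ n).sat (stdN (join (join B A) G)) v) →
      ∃ s : T, Cond s G ∧ ∀ G' : Om, Cond s G' →
        ∀ (n : ℕ) v, (rfn Q μ n).sat (stdN (join (join B A) G')) v) :=
    eventually_countable_forall.2 fun Q => eventually_countable_forall.2 fun μ => key Q μ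
  filter_upwards [key2] with G hG μ P hμ hP hR
  obtain ⟨c, κ, hH, hC, hn⟩ := hR (SS (join (join B A) G)) (SCLASS_thm hA G)
  apply hn
  have ht := h5 μ hμ P hP (join (join B A) G) c κ hC.1
  have b1 : (P c κ).bdd = true := (Fm.bdd_of (P c κ)).1 (hP.delta c κ).1
  have b2 : μ.bdd = true := (Fm.bdd_of μ).1 hμ.1
  have b3 : μ.fvBelow 4 := RD.FAILS.fvBelow_mono μ (by omega) hμ.2.1
  obtain ⟨s, hs, hs'⟩ := hG (P c κ) μ b1 b2 (hP.below c κ) b3 ht
  obtain ⟨f, hf, hfn⟩ := CONSTR_thm h2 hA G (P c κ) μ b1 b2 (hP.below c κ) b3 s hs hs'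
  exact ⟨f, (PolyOn.of_poly (H := Set.univ) hf).polyTimeO (O := join (join B A) G)
    (Set.mem_univ _), hfn⟩

/-- The main theorem. -/
theorem main (B : Om) : ∃ A : Om, (∀ i, A i = true → ∃ m : ℕ, i = 2 ^ 2 ^ 2 ^ m) ∧
    (∀ (μ : Fm) (P : OCode → ℕ → Fm), IsUniversal μ → IsFormalisation μ P →
      ¬ ReflectionConjecture (join B A) μ P) ∧
    ∀ᶠ G in residual Om,
      (∀ D : Set T, D.Infinite → RD.InP (join (join B A) G) D →
        ∃ L ⊆ D, RD.InPi2 (join (join B A) G) L ∧ ¬ RD.InSigma2 (join (join B A) G) L) ∧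
      ∀ (μ : Fm) (P : OCode → ℕ → Fm), IsUniversal μ → IsFormalisation μ P →
        ¬ ReflectionConjecture (join (join B A) G) μ P := by
  obtain ⟨A, hA⟩ := exists_base B
  refine ⟨A, fun i hi => ?_, fun μ P hμ hP => FAILS0_thm (RD.RFNLOC_thm RD.LOCB_thm)
    RD.RFNTRUE_thm hA μ P hμ hP, ?_⟩
  · obtain ⟨m, hm, _⟩ := (hA i).1 hi
    exact ⟨m, hm⟩
  · filter_upwards [FAILS_thm (RD.RFNLOC_thm RD.LOCB_thm) RD.GENERIC_thm RD.RFNTRUE_thm hA,
      RD.PHTWOS (RD.COUNT_thm RD.fin') (join B A)] with G hF hP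
    exact ⟨fun D hD hDP => ⟨RD.LL G ∩ D, Set.inter_subset_right,
      RD.PITWOS (join B A) G D hDP, hP D hD hDP⟩, hF⟩

end Pool.Agent.RT
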